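import Pool.Agent.W912.EC.Defs2
import Pool.Agent.H622R2.Exp.A6

/-!
# Project EC (helper912), part TIME2
-/

set_option autoImplicit false

namespace Pool.Agent.W240.EC.Time2

open Pool.Agent.NPC Pool.Agent.H620R2.Gauge Pool.Agent.H622R2.Exp Pool.Agent.H622R2.Ckt
open Pool.Agent.W912.EC

theorem poly_two_pow {α : Type} [TEnc α] {n : α → ℕ} (hn : UPoly n) :
    NPC.Poly (fun a => 2 ^ n a) := A6.poly_two_pow hn

/-- the next action -/
def act (a b : ℕ) (p : List Bool × List Bool) : List Bool :=
  if p.2.length < 2 ^ (a * p.1.length / b) then [false] else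
    if p.2.length = 2 ^ (a * p.1.length / b) then
      false :: (p.2.map (fun _ => true) ++ false :: p.1)
    else [true, p.2.reverse.head?.getD false]

theorem poly_act (a b : ℕ) : NPC.Poly (fun y => act a b (unpair y)) := by
  have hx : NPC.Poly (fun y => (unpair y).1) := NPC.Poly.fst poly_unpair
  have ha : NPC.Poly (fun y => (unpair y).2) := NPC.Poly.snd poly_unpair
  have h0 : UPoly (fun y : List Bool => a * (unpair y).1.length) :=
    UPoly.mul (UPoly.const a) (UPoly.length hx)
  have h1 : UPoly (fun y : List Bool => a * (unpair y).1.length / b) :=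
    UPoly.of_le (NPC.Poly.div h0.toPoly (NPC.Poly.const b)) h0 fun _ => Nat.div_le_self _ _
  have hR : NPC.Poly (fun y : List Bool => 2 ^ (a * (unpair y).1.length / b)) :=
    poly_two_pow h1
  have hm : NPC.Poly (fun y : List Bool => (unpair y).2.map (fun _ => true)) :=
    NPC.Poly.map (F := fun _ _ => true) ha (NPC.Poly.const true)
  unfold act
  refine NPC.Poly.ite (NPC.Poly.decide_lt (NPC.Poly.length ha) hR) (NPC.Poly.const _)
    (NPC.Poly.ite (NPC.Poly.decide_eq (NPC.Poly.length ha) hR) ?_ ?_)
  · exact NPC.Poly.cons (NPC.Poly.const _) (NPC.Poly.append hm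
      (NPC.Poly.cons (NPC.Poly.const _) hx))
  · exact NPC.Poly.cons (NPC.Poly.const _) (NPC.Poly.cons
      (NPC.Poly.head?_getD (NPC.Poly.reverse ha) false) (NPC.Poly.const _))

/-- the algorithm -/
noncomputable def alg (a b : ℕ) : Alg where
  D := fun y => act a b (unpair y)
  poly := Pool.Agent.H622R2.polyTime_of_poly_list (poly_act a b)
  p := 0

theorem alg_D (a b : ℕ) (x c : List Bool) :
    (alg a b).D (pairBits x c) = act a b (x, c) := by
  change act a b (unpair (pairBits x c)) = _
  rw [unpair_pairBits]

theorem run_alg (a b : ℕ) (A : Oracle) (x : List Bool) : ∀ (n : ℕ)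
    (c : List Bool), n + c.length = 2 ^ (a * x.length / b) →
    (alg a b).run A x (n + 2) c = some [A (tst2 a b x)] := by
  intro n
  induction n with
  | zero =>
    intro c hc
    rw [Nat.zero_add] at hc
    have h1 : (alg a b).D (pairBits x c) = false :: tst2 a b x := by
      rw [alg_D]
      unfold act
      rw [if_neg (by simp only; omega), if_pos (by simp only; omega)]
      unfold tst2
      simp only
      rw [List.map_const', hc]
    have h2 : (alg a b).D (pairBits x (c ++ [A (tst2 a b x)])) =
        true :: [A (tst2 a b x)] := by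
      rw [alg_D]
      unfold act
      rw [if_neg (by simp only [List.length_append, List.length_singleton]; omega),
        if_neg (by simp only [List.length_append, List.length_singleton]; omega)]
      simp
    simp only [Nat.zero_add, Alg.run, h1, h2]
  | succ n ih =>
    intro c hc
    have h1 : (alg a b).D (pairBits x c) = false :: [] := by
      rw [alg_D]
      unfold act
      rw [if_pos (by simp only; omega)]
    have h2 := ih (c ++ [A []]) (by rw [List.length_append, List.length_singleton]; omega)
    have h3 : n + 1 + 2 = (n + 2) + 1 := by ring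
    rw [h3, Alg.run]
    simp only [h1]
    exact h2

theorem time2 : S_TIME2 := by
  intro a b A hb
  refine ⟨alg a b, Polynomial.C (a + 2) * (Polynomial.X + 1), ⟨a + 2, rfl⟩,
    fun x => ⟨[A (tst2 a b x)], ?_, ?_⟩⟩
  · refine Alg.run_mono _ A x _ (2 ^ (a * x.length / b) + 2) _ [] ?_
      (run_alg a b A x _ [] (by simp))
    have h1 : (Polynomial.C (a + 2) * (Polynomial.X + 1)).eval x.length =
        (a + 2) * (x.length + 1) := by simp
    have h0 : a * x.length / b ≤ a * x.length := Nat.div_le_self _ _
    have h4 : a * x.length / b + 2 ≤ (a + 2) * (x.length + 1) := by nlinarith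
    have h2 : 2 ^ (a * x.length / b + 2) ≤ 2 ^ ((a + 2) * (x.length + 1)) :=
      Nat.pow_le_pow_right (by norm_num) h4
    have h3 : 1 ≤ 2 ^ (a * x.length / b) := Nat.one_le_two_pow
    rw [h1]
    rw [pow_add] at h2
    omega
  · simp [LL2]

end Pool.Agent.W240.EC.Time2
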